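import Pool.Agent.helper23.CU.SpecU

/-!
# Project cs (MP_7c3fb3_pr, second block): sharpness for the zero field Ising model.  Definitions.

Finite multigraphs with coupling `b` on every edge; `V` contains the ghost vertex, no field, no fixed spin.
-/

open Finset

namespace CS

/-- indicator of a proposition -/
noncomputable def ind (p : Prop) : ℝ := @ite ℝ p (Classical.dec p) 1 0

/-- a multigraph: the two endpoints of the edges -/
structure MG (V ι : Type) where
  s : ι → V
  t : ι → V

/-- product of the spins at the endpoints of `e` -/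
def mm {V ι : Type} (G : MG V ι) (e : ι) (σ : V → Bool) : ℝ := CU.sg (σ (G.s e)) * CU.sg (σ (G.t e))

/-- indicator that the spins at the endpoints of `e` agree -/
noncomputable def dd {V ι : Type} (G : MG V ι) (e : ι) (σ : V → Bool) : ℝ := ind (σ (G.s e) = σ (G.t e))

/-- `x` and `y` are connected by the edges `ω`: every configuration constant on the edges of `ω` agrees at `x` and `y` -/
def Conn {V ι : Type} (G : MG V ι) (ω : Finset ι) (x y : V) : Prop :=
  ∀ σ : V → Bool, (∀ e ∈ ω, σ (G.s e) = σ (G.t e)) → σ x = σ y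

section
variable {V ι : Type} [Fintype V] [DecidableEq V]

/-- unnormalised expectation of `f` with coupling `b` on the edges of `E` -/
noncomputable def Zf (G : MG V ι) (b : ℝ) (E : Finset ι) (f : (V → Bool) → ℝ) : ℝ :=
  ∑ σ : V → Bool, Real.exp (b * ∑ e ∈ E, mm G e σ) * f σ

/-- expectation of `f` with coupling `b` on the edges of `E` -/
noncomputable def mf (G : MG V ι) (b : ℝ) (E : Finset ι) (f : (V → Bool) → ℝ) : ℝ :=
  Zf G b E f / Zf G b E fun _ => 1

/-- two point function -/
noncomputable def cor (G : MG V ι) (b : ℝ) (E : Finset ι) (x y : V) : ℝ :=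
  mf G b E fun σ => CU.sg (σ x) * CU.sg (σ y)

/-- sum over the configurations constant on the edges of `ω` -/
noncomputable def KK (G : MG V ι) (ω : Finset ι) (f : (V → Bool) → ℝ) : ℝ := ∑ σ : V → Bool, (∏ e ∈ ω, dd G e σ) * f σ

/-- number of configurations constant on the edges of `ω` -/
noncomputable def KN (G : MG V ι) (ω : Finset ι) : ℝ := KK G ω fun _ => 1

/-- the vertices not connected to `z` by `ω` -/
noncomputable def Cz (G : MG V ι) (ω : Finset ι) (z : V) : Finset V :=
  @Finset.filter V (fun v => ¬ Conn G ω v z) (Classical.decPred _) univ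

variable [DecidableEq ι]

/-- edges of `E` inside `S` -/
def ins (G : MG V ι) (E : Finset ι) (S : Finset V) : Finset ι := E.filter fun e => G.s e ∈ S ∧ G.t e ∈ S

/-- edges of `E` leaving `S`, start in `S` -/
def oS (G : MG V ι) (E : Finset ι) (S : Finset V) : Finset ι := E.filter fun e => G.s e ∈ S ∧ G.t e ∉ S

/-- edges of `E` leaving `S`, end in `S` -/
def oT (G : MG V ι) (E : Finset ι) (S : Finset V) : Finset ι := E.filter fun e => G.t e ∈ S ∧ G.s e ∉ S

/-- the sum over the edges leaving `S` of the two point function of `S` -/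
noncomputable def psi (G : MG V ι) (b : ℝ) (E : Finset ι) (S : Finset V) (a : V) : ℝ :=
  ∑ e ∈ oS G E S, cor G b (ins G E S) a (G.s e) + ∑ e ∈ oT G E S, cor G b (ins G E S) a (G.t e)

/-- random cluster weight of `ω ⊆ E` -/
noncomputable def wf (G : MG V ι) (b : ℝ) (E ω : Finset ι) : ℝ :=
  (1 - Real.exp (-2 * b)) ^ ω.card * Real.exp (-2 * b) ^ (E \ ω).card * KN G ω

/-- random cluster sum of `F` -/
noncomputable def FS (G : MG V ι) (b : ℝ) (E : Finset ι) (F : Finset ι → ℝ) : ℝ := ∑ ω ∈ E.powerset, wf G b E ω * F ω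

end

section lattice
open CU

variable {d : ℕ}

/-- collapse of the complement of `Λ` to one point -/
def cl (Λ : Finset (ZSite d)) (x : ZSite d) : Option {x // x ∈ Λ} := if h : x ∈ Λ then some ⟨x, h⟩ else none

/-- the graph of the bonds touching `Λ`, the complement of `Λ` collapsed -/
def zG (Λ : Finset (ZSite d)) : MG (Option {x // x ∈ Λ}) {e // e ∈ tE Λ} where
  s := fun e => cl Λ e.1.1
  t := fun e => cl Λ (e.1.1 + zev e.1.2)

/-- two point function of `0` and `x` in `S` with free boundary condition -/
noncomputable def cz (b : ℝ) (S : Finset (ZSite d)) (x : ZSite d) : ℝ :=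
  cor (zG S) b (ins (zG S) univ (S.image (cl S))) (cl S 0) (cl S x)

/-- sum of the two point function over the bonds leaving `S` -/
noncomputable def psz (b : ℝ) (S : Finset (ZSite d)) : ℝ :=
  ∑ e ∈ (tE S).filter fun e => e.1 ∈ S ∧ e.1 + zev e.2 ∉ S, cz b S e.1 +
    ∑ e ∈ (tE S).filter fun e => e.1 + zev e.2 ∈ S ∧ e.1 ∉ S, cz b S (e.1 + zev e.2)

/-- magnetisation at the centre of the box of radius `L` with plus boundary condition -/
noncomputable def ML (d : ℕ) (b : ℝ) (L : ℕ) : ℝ :=
  gam b 0 (zBox L (0 : ZSite d)) (fun σ => sg (σ 0)) (fun _ => true)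

/-- uniqueness of the Gibbs measure in zero field -/
def Uniq (d : ℕ) (b : ℝ) : Prop := ∀ μ ν : MeasureTheory.Measure (ZConf d), IsGibbs d b 0 μ → IsGibbs d b 0 ν → μ = ν

end lattice

end CS
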