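import Pool.Agent.helper23.CS.Spec2

open Finset

namespace CS
open CU

theorem BRB_wt {d n : ℕ} (β : ℝ) (τ : Conf d (n + 3)) :
    wt β 0 τ = Real.exp (β * (Fintype.card (Edge d (n + 3)) : ℝ)) * W β τ := by
  unfold wt W
  rw [← Real.exp_add]
  congr 1
  have h1 : ∑ x : Site d (n + 3), ∑ i : Fin d, sg (τ x) * sg (τ (x + ev i)) =
      ∑ e : Edge d (n + 3), sg (τ e.1) * sg (τ (e.1 + ev e.2)) := by
    rw [Fintype.sum_prod_type]
  have h2 : ∀ e : Edge d (n + 3), sg (τ e.1) * sg (τ (e.1 + ev e.2)) =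
      1 - 2 * (if τ e.1 ≠ τ (e.1 + ev e.2) then (1 : ℝ) else 0) := by
    intro e
    rw [sg_mul_self]
    by_cases h : τ e.1 = τ (e.1 + ev e.2)
    · rw [if_pos h, if_neg (not_not.mpr h)]; ring
    · rw [if_neg h, if_pos h]; ring
  rw [h1, Finset.sum_congr rfl fun e _ => h2 e, Finset.sum_sub_distrib, ← Finset.mul_sum, Finset.sum_const, Finset.card_univ,
    nsmul_eq_mul, mul_one]
  have h3 : ((brk τ).card : ℝ) = ∑ e : Edge d (n + 3), (if τ e.1 ≠ τ (e.1 + ev e.2) then (1 : ℝ) else 0) := by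
    unfold brk
    rw [Finset.card_filter]
    push_cast
    rfl
  rw [h3]
  ring

/-- translation of configurations -/
def BRB_T {d n : ℕ} (x : Site d (n + 3)) : Conf d (n + 3) ≃ Conf d (n + 3) where
  toFun := fun τ y => τ (y - x)
  invFun := fun τ y => τ (y + x)
  left_inv := fun τ => by funext y; simp
  right_inv := fun τ => by funext y; simp

theorem BRB_wT {d n : ℕ} (β : ℝ) (x : Site d (n + 3)) (τ : Conf d (n + 3)) : wt β 0 (BRB_T x τ) = wt β 0 τ := by
  unfold wt
  congr 2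
  · congr 1
    rw [← Equiv.sum_comp (Equiv.addRight x)]
    refine Finset.sum_congr rfl fun y _ => Finset.sum_congr rfl fun i _ => ?_
    simp only [BRB_T, Equiv.coe_fn_mk, Equiv.coe_addRight]
    rw [show y + x - x = y by abel, show y + x + ev i - x = y + ev i by abel]
  · congr 1
    rw [← Equiv.sum_comp (Equiv.addRight x)]
    refine Finset.sum_congr rfl fun y _ => ?_
    simp only [BRB_T, Equiv.coe_fn_mk, Equiv.coe_addRight]
    rw [show y + x - x = y by abel]

theorem BRB_mem {d n : ℕ} (β : ℝ) (L : ℕ) (x y : Site d (n + 3)) :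
    y ∈ CWM.Bl (CWM.tD d (n + 3) β 0) x L ↔ y - x ∈ Box L (0 : Site d (n + 3)) := by
  unfold CWM.Bl Box
  simp only [Finset.mem_filter, Finset.mem_univ, true_and]
  show CWM.dsT x y ≤ L ↔ Near L 0 (y - x)
  unfold CWM.dsT Near
  rw [Finset.sup_le_iff]
  refine ⟨fun h k => ?_, fun h k _ => ?_⟩
  · have h1 := h k (mem_univ _)
    have h2 : ((y - x) k - (0 : Site d (n + 3)) k) = -(x k - y k) := by
      simp only [Pi.sub_apply, Pi.zero_apply]; ring
    rw [h2, ZMod.natAbs_valMinAbs_neg]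
    exact h1
  · have h1 := h k
    have h2 : ((y - x) k - (0 : Site d (n + 3)) k) = -(x k - y k) := by
      simp only [Pi.sub_apply, Pi.zero_apply]; ring
    rw [h2, ZMod.natAbs_valMinAbs_neg] at h1
    exact h1

theorem BRB_sum {d n : ℕ} (β : ℝ) (L : ℕ) (x : Site d (n + 3)) (F : Conf d (n + 3) → ℝ) :
    ∑ σ : Conf d (n + 3), CWM.cw (wt β 0 : Conf d (n + 3) → ℝ) (CWM.Bl (CWM.tD d (n + 3) β 0) x L) true σ * F σ =
      Real.exp (β * (Fintype.card (Edge d (n + 3)) : ℝ)) *
        ∑ σ ∈ PlusOn (Box L (0 : Site d (n + 3))), W β σ * F (BRB_T x σ) := by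
  rw [← Equiv.sum_comp (BRB_T x), Finset.mul_sum]
  unfold PlusOn
  rw [Finset.sum_filter]
  refine Finset.sum_congr rfl fun σ _ => ?_
  unfold CWM.cw
  rw [BRB_wT, BRB_wt]
  have h1 : (∀ y, y ∉ CWM.Bl (CWM.tD d (n + 3) β 0) x L → BRB_T x σ y = true) ↔
      ∀ z, z ∉ Box L (0 : Site d (n + 3)) → σ z = true := by
    constructor
    · intro h z hz
      have h2 := h (z + x) (fun h' => hz (by
        have h3 := (BRB_mem β L x (z + x)).mp h'
        rwa [show z + x - x = z by abel] at h3))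
      simpa [BRB_T] using h2
    · intro h y hy
      exact h (y - x) fun h' => hy ((BRB_mem β L x y).mpr h')
  by_cases h : ∀ z, z ∉ Box L (0 : Site d (n + 3)) → σ z = true
  · rw [if_pos h]
    have : CWM.ind (∀ y, y ∉ CWM.Bl (CWM.tD d (n + 3) β 0) x L → BRB_T x σ y = true) = 1 := by
      unfold CWM.ind; exact if_pos (h1.mpr h)
    rw [this]; ring
  · rw [if_neg h]
    have : CWM.ind (∀ y, y ∉ CWM.Bl (CWM.tD d (n + 3) β 0) x L → BRB_T x σ y = true) = 0 := by
      unfold CWM.ind; exact if_neg fun h' => h (h1.mp h')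
    rw [this]; ring

theorem BRB : BRB_stmt := by
  intro d n β L x
  unfold CWM.av ExD
  have h1 := BRB_sum β L x (fun σ => sg (σ x))
  have h2 := BRB_sum β L x (fun _ => 1)
  simp only [mul_one] at h2
  rw [h1, h2, mul_div_mul_left _ _ (Real.exp_pos _).ne']
  have h3 : ∀ σ : Conf d (n + 3), BRB_T x σ x = σ 0 := fun σ => by simp [BRB_T]
  simp only [h3]

end CS
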