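import Pool.Agent.helper23.CS.Spec

open Finset Filter Topology MeasureTheory

namespace CS
open CU

theorem GCT_sg {d : ℕ} (x : ZSite d) : Continuous fun σ : ZConf d => sg (σ x) :=
  (continuous_of_discreteTopology (f := sg)).comp (continuous_apply x)

theorem GCT_glue {d : ℕ} (Λ : Finset (ZSite d)) (η : {x // x ∈ Λ} → Bool) : Continuous fun ω : ZConf d => glue Λ η ω := by
  refine continuous_pi fun x => ?_
  unfold glue
  by_cases hx : x ∈ Λ
  · simp only [dif_pos hx]; exact continuous_const
  · simp only [dif_neg hx]; exact continuous_apply x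

theorem GCT_zwt {d : ℕ} (β : ℝ) (Λ : Finset (ZSite d)) : Continuous fun σ : ZConf d => zwt β 0 Λ σ := by
  unfold zwt
  refine Real.continuous_exp.comp ((continuous_const.mul ?_).add (continuous_const.mul ?_))
  · exact continuous_finsetSum _ fun e _ => (GCT_sg _).mul (GCT_sg _)
  · exact continuous_finsetSum _ fun x _ => GCT_sg x

theorem GCT : GCT_stmt := by
  intro d β Λ
  refine ⟨fun f hf => ?_, GCT_sg⟩
  unfold gam
  refine Continuous.div ?_ ?_ ?_
  · exact continuous_finsetSum _ fun η _ => ((GCT_zwt β Λ).comp (GCT_glue Λ η)).mul (hf.comp (GCT_glue Λ η))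
  · exact continuous_finsetSum _ fun η _ => (GCT_zwt β Λ).comp (GCT_glue Λ η)
  · intro ω
    exact (Finset.sum_pos (fun η _ => Real.exp_pos _) univ_nonempty).ne'

end CS
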