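import Pool.Agent.helper23.CS.Spec2

open Finset

namespace CS
open CU

section
variable {V : Type} [Fintype V] [DecidableEq V]

theorem MONA_pos {W : (V → Bool) → ℝ} (hW : ∀ σ, 0 < W σ) (A : Finset V) (b : Bool) : 0 < ∑ σ, CWM.cw W A b σ := by
  refine Finset.sum_pos' (fun σ _ => mul_nonneg (hW σ).le (by unfold CWM.ind; split_ifs <;> norm_num)) ⟨fun _ => b, mem_univ _, ?_⟩
  unfold CWM.cw
  have : CWM.ind (∀ x, x ∉ A → (fun _ : V => b) x = b) = 1 := by
    unfold CWM.ind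
    exact if_pos fun _ _ => rfl
  rw [this, mul_one]
  exact hW _

theorem MONA_nn {W : (V → Bool) → ℝ} (hW : ∀ σ, 0 < W σ) (A : Finset V) (b : Bool) (σ : V → Bool) : 0 ≤ CWM.cw W A b σ :=
  mul_nonneg (hW σ).le (by unfold CWM.ind; split_ifs <;> norm_num)

theorem MONA_ind0 (p : Prop) : 0 ≤ CWM.ind p := by unfold CWM.ind; split_ifs <;> norm_num
theorem MONA_ind1 (p : Prop) : CWM.ind p ≤ 1 := by unfold CWM.ind; split_ifs <;> norm_num
theorem MONA_indm {p q : Prop} (h : p → q) : CWM.ind p ≤ CWM.ind q := by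
  by_cases hp : p
  · unfold CWM.ind
    rw [if_pos hp, if_pos (h hp)]
  · have : CWM.ind p = 0 := by unfold CWM.ind; exact if_neg hp
    rw [this]; exact MONA_ind0 q
theorem MONA_inda (p q : Prop) (h : q → p) : CWM.ind p * CWM.ind q = CWM.ind q := by
  by_cases hq : q
  · have : CWM.ind p = 1 := by unfold CWM.ind; exact if_pos (h hq)
    rw [this, one_mul]
  · have : CWM.ind q = 0 := by unfold CWM.ind; exact if_neg hq
    rw [this, mul_zero]

theorem MONA_sup {W : (V → Bool) → ℝ} (hW : ∀ σ, 0 < W σ) (hs : ∀ σ τ, W σ * W τ ≤ W (σ ⊓ τ) * W (σ ⊔ τ)) (A : Finset V) (b : Bool)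
    (σ τ : V → Bool) : CWM.cw W A b σ * CWM.cw W A b τ ≤ CWM.cw W A b (σ ⊓ τ) * CWM.cw W A b (σ ⊔ τ) := by
  by_cases h : (∀ x, x ∉ A → σ x = b) ∧ ∀ x, x ∉ A → τ x = b
  · have h1 : CWM.cw W A b σ = W σ := by
      unfold CWM.cw CWM.ind; rw [if_pos h.1, mul_one]
    have h2 : CWM.cw W A b τ = W τ := by
      unfold CWM.cw CWM.ind; rw [if_pos h.2, mul_one]
    have h3 : CWM.cw W A b (σ ⊓ τ) = W (σ ⊓ τ) := by
      unfold CWM.cw CWM.ind
      rw [if_pos (fun x hx => by rw [Pi.inf_apply, h.1 x hx, h.2 x hx, inf_idem]), mul_one]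
    have h4 : CWM.cw W A b (σ ⊔ τ) = W (σ ⊔ τ) := by
      unfold CWM.cw CWM.ind
      rw [if_pos (fun x hx => by rw [Pi.sup_apply, h.1 x hx, h.2 x hx, sup_idem]), mul_one]
    rw [h1, h2, h3, h4]
    exact hs σ τ
  · have h0 : CWM.cw W A b σ * CWM.cw W A b τ = 0 := by
      unfold CWM.cw CWM.ind
      by_cases h1 : ∀ x, x ∉ A → σ x = b
      · rw [if_neg (fun h2 => h ⟨h1, h2⟩)]; ring
      · rw [if_neg h1]; ring
    rw [h0]
    exact mul_nonneg (MONA_nn hW A b _) (MONA_nn hW A b _)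

theorem MONA_plus {W : (V → Bool) → ℝ} (hW : ∀ σ, 0 < W σ) (hs : ∀ σ τ, W σ * W τ ≤ W (σ ⊓ τ) * W (σ ⊔ τ)) {A' A : Finset V}
    (hA : A' ⊆ A) (x : V) :
    CWM.av (CWM.cw W A true) (fun σ => CWM.ind (σ x = true)) ≤ CWM.av (CWM.cw W A' true) fun σ => CWM.ind (σ x = true) := by
  have hf : Monotone fun σ : V → Bool => CWM.ind (σ x = true) := fun σ τ h => MONA_indm fun h1 => by
    have := h x
    rw [h1] at this
    exact top_le_iff.mp this
  have hg : Monotone fun σ : V → Bool => CWM.ind (∀ y, y ∉ A' → σ y = true) := fun σ τ h => MONA_indm fun h1 y hy => by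
    have := h y
    rw [h1 y hy] at this
    exact top_le_iff.mp this
  have hf0 : (0 : (V → Bool) → ℝ) ≤ fun σ : V → Bool => CWM.ind (σ x = true) := fun σ => MONA_ind0 _
  have hg0 : (0 : (V → Bool) → ℝ) ≤ fun σ : V → Bool => CWM.ind (∀ y, y ∉ A' → σ y = true) := fun σ => MONA_ind0 _
  have hm0 : (0 : (V → Bool) → ℝ) ≤ CWM.cw W A true := fun σ => MONA_nn hW A true σ
  have hk := fkg _ _ _ hm0 hf0 hg0 hf hg (MONA_sup hW hs A true)
  have h1 : ∀ σ : V → Bool, CWM.cw W A true σ * CWM.ind (∀ y, y ∉ A' → σ y = true) = CWM.cw W A' true σ := by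
    intro σ
    unfold CWM.cw
    rw [mul_assoc, MONA_inda _ _ fun h y hy => h y fun hy' => hy (hA hy')]
  have h2 : ∀ σ : V → Bool, CWM.cw W A true σ * (CWM.ind (σ x = true) * CWM.ind (∀ y, y ∉ A' → σ y = true)) =
      CWM.cw W A' true σ * CWM.ind (σ x = true) := by
    intro σ
    rw [← h1 σ]; ring
  rw [Finset.sum_congr rfl fun σ _ => h1 σ, Finset.sum_congr rfl fun σ _ => h2 σ] at hk
  unfold CWM.av
  rw [div_le_div_iff₀ (MONA_pos hW A true) (MONA_pos hW A' true)]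
  linarith

theorem MONA_minus {W : (V → Bool) → ℝ} (hW : ∀ σ, 0 < W σ) (hs : ∀ σ τ, W σ * W τ ≤ W (σ ⊓ τ) * W (σ ⊔ τ)) {A' A : Finset V}
    (hA : A' ⊆ A) (x : V) :
    CWM.av (CWM.cw W A' false) (fun σ => CWM.ind (σ x = true)) ≤ CWM.av (CWM.cw W A false) fun σ => CWM.ind (σ x = true) := by
  have hf : Monotone fun σ : V → Bool => CWM.ind (σ x = true) := fun σ τ h => MONA_indm fun h1 => by
    have := h x
    rw [h1] at this
    exact top_le_iff.mp this
  have hg : Monotone fun σ : V → Bool => 1 - CWM.ind (∀ y, y ∉ A' → σ y = false) := by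
    intro σ τ h
    have : CWM.ind (∀ y, y ∉ A' → τ y = false) ≤ CWM.ind (∀ y, y ∉ A' → σ y = false) := MONA_indm fun h1 y hy => by
      have := h y
      rw [h1 y hy] at this
      exact le_bot_iff.mp this
    show 1 - CWM.ind (∀ y, y ∉ A' → σ y = false) ≤ 1 - CWM.ind (∀ y, y ∉ A' → τ y = false)
    linarith
  have hf0 : (0 : (V → Bool) → ℝ) ≤ fun σ : V → Bool => CWM.ind (σ x = true) := fun σ => MONA_ind0 _
  have hg0 : (0 : (V → Bool) → ℝ) ≤ fun σ : V → Bool => 1 - CWM.ind (∀ y, y ∉ A' → σ y = false) :=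
    fun σ => sub_nonneg.mpr (MONA_ind1 _)
  have hm0 : (0 : (V → Bool) → ℝ) ≤ CWM.cw W A false := fun σ => MONA_nn hW A false σ
  have hk := fkg _ _ _ hm0 hf0 hg0 hf hg (MONA_sup hW hs A false)
  have h1 : ∀ σ : V → Bool, CWM.cw W A false σ * (1 - CWM.ind (∀ y, y ∉ A' → σ y = false)) =
      CWM.cw W A false σ - CWM.cw W A' false σ := by
    intro σ
    unfold CWM.cw
    have := MONA_inda (∀ y, y ∉ A → σ y = false) (∀ y, y ∉ A' → σ y = false) fun h y hy => h y fun hy' => hy (hA hy')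
    linear_combination (-W σ) * this
  have h2 : ∀ σ : V → Bool, CWM.cw W A false σ * (CWM.ind (σ x = true) * (1 - CWM.ind (∀ y, y ∉ A' → σ y = false))) =
      CWM.cw W A false σ * CWM.ind (σ x = true) - CWM.cw W A' false σ * CWM.ind (σ x = true) := by
    intro σ
    have := h1 σ
    linear_combination CWM.ind (σ x = true) * this
  rw [Finset.sum_congr rfl fun σ _ => h1 σ, Finset.sum_congr rfl fun σ _ => h2 σ, Finset.sum_sub_distrib, Finset.sum_sub_distrib] at hk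
  unfold CWM.av
  rw [div_le_div_iff₀ (MONA_pos hW A' false) (MONA_pos hW A false)]
  nlinarith [hk]

end

theorem MONA : MONA_stmt := by
  intro V _ _ W hW hs A' A hA x
  unfold CWM.dl
  have h1 := MONA_plus hW hs hA x
  have h2 := MONA_minus hW hs hA x
  linarith

end CS
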