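import Pool.Agent.helper23.CS.Spec

open Finset

namespace CS
open CU

theorem SEXP_L {ι : Type} [DecidableEq ι] (s : Finset ι) (A B : ι → ℝ) :
    ∏ e ∈ s, (A e + B e) = ∑ t ∈ s.powerset, ∏ e ∈ s, if e ∈ t then A e else B e := by
  rw [Finset.prod_add]
  refine Finset.sum_congr rfl fun t ht => ?_
  rw [Finset.mem_powerset] at ht
  rw [Finset.prod_ite]
  congr 1
  · rw [Finset.filter_mem_eq_inter, Finset.inter_eq_right.mpr ht]
  · rw [← Finset.sdiff_eq_filter]

theorem SEXP_in {ι : Type} [DecidableEq ι] (s t : Finset ι) (h : t ⊆ s) (f : ι → ℝ) :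
    ∏ e ∈ t, f e = ∏ e ∈ s, if e ∈ t then f e else 1 := by
  rw [Finset.prod_ite_mem, Finset.inter_eq_right.mpr h]

theorem SEXP_single (b m : ℝ) (hm : m = 1 ∨ m = -1) : Real.exp (b * m) = m * Real.sinh b + Real.cosh b := by
  rcases hm with h | h
  · rw [h, mul_one, one_mul, add_comm, Real.cosh_add_sinh]
  · rw [h]
    have := Real.cosh_sub_sinh b
    rw [show b * (-1) = -b by ring, ← this]; ring

theorem SEXP_double (b m m' δ : ℝ) (hm : m = 1 ∨ m = -1) (hm' : m' = 1 ∨ m' = -1) (hδ : δ = (1 + m') / 2) :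
    Real.exp (b * m) * Real.exp (b * (m * m')) =
      (Real.sinh (2 * b) * (δ * m) + 0) + ((Real.cosh (2 * b) - 1) * δ + 1) := by
  rcases hm' with h | h
  · rw [hδ, h, mul_one, ← Real.exp_add, show b * m + b * m = 2 * b * m by ring, SEXP_single (2 * b) m hm]
    ring
  · rw [hδ, h, ← Real.exp_add, show b * m + b * (m * -1) = 0 by ring, Real.exp_zero]
    ring

theorem SEXP : SEXP_stmt := by
  intro V ι _ _ _ G b E I hb hI σ η
  have hmm : ∀ e, mm G e σ = 1 ∨ mm G e σ = -1 := fun e => (Ch_mm G e).2 σ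
  have hmη : ∀ e, mm G e η = 1 ∨ mm G e η = -1 := fun e => (Ch_mm G e).2 η
  -- left side
  have hL : Real.exp (b * ∑ e ∈ E, mm G e σ) * Real.exp (b * ∑ e ∈ I, mm G e (mc σ η)) =
      (∏ e ∈ E \ I, (mm G e σ * Real.sinh b + Real.cosh b)) *
        ∏ e ∈ I, ((Real.sinh (2 * b) * (dd G e η * mm G e σ) + 0) + ((Real.cosh (2 * b) - 1) * dd G e η + 1)) := by
    rw [Finset.mul_sum, Finset.mul_sum, Real.exp_sum, Real.exp_sum, ← Finset.prod_sdiff hI, mul_assoc,
      ← Finset.prod_mul_distrib]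
    congr 1
    · exact Finset.prod_congr rfl fun e _ => SEXP_single b _ (hmm e)
    · refine Finset.prod_congr rfl fun e _ => ?_
      rw [mm_mc]
      exact SEXP_double b _ _ _ (hmm e) (hmη e) (dd_eq G e η)
  rw [hL]
  -- right side
  let A : ι → ℝ := fun e => if e ∈ I then Real.sinh (2 * b) * (dd G e η * mm G e σ) + 0 else mm G e σ * Real.sinh b
  let B : ι → ℝ := fun e => if e ∈ I then (Real.cosh (2 * b) - 1) * dd G e η + 1 else Real.cosh b
  have hAB : (∏ e ∈ E \ I, (mm G e σ * Real.sinh b + Real.cosh b)) *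
        ∏ e ∈ I, ((Real.sinh (2 * b) * (dd G e η * mm G e σ) + 0) + ((Real.cosh (2 * b) - 1) * dd G e η + 1)) =
      ∏ e ∈ E, (A e + B e) := by
    rw [← Finset.prod_sdiff hI]
    congr 1
    · refine Finset.prod_congr rfl fun e he => ?_
      have : e ∉ I := (Finset.mem_sdiff.mp he).2
      simp only [A, B, if_neg this]
    · refine Finset.prod_congr rfl fun e he => ?_
      simp only [A, B, if_pos he]
  rw [hAB, SEXP_L]
  refine Finset.sum_congr rfl fun F hF => ?_
  rw [Finset.mem_powerset] at hF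
  -- sum over C
  have hC : ∀ C ∈ I.powerset,
      ((∏ e ∈ E \ I, if e ∈ F then Real.sinh b else Real.cosh b) *
        ∏ e ∈ I, if e ∈ F then (if e ∈ C then Real.sinh (2 * b) else 0) else (if e ∈ C then Real.cosh (2 * b) - 1 else 1)) *
      ((∏ e ∈ C, dd G e η) * ∏ e ∈ F, mm G e σ) =
      (∏ e ∈ E \ I, if e ∈ F then mm G e σ * Real.sinh b else Real.cosh b) *
        ∏ e ∈ I, if e ∈ C then (if e ∈ F then Real.sinh (2 * b) * (dd G e η * mm G e σ) else (Real.cosh (2 * b) - 1) * dd G e η)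
          else (if e ∈ F then 0 else 1) := by
    intro C hC
    rw [Finset.mem_powerset] at hC
    rw [SEXP_in I C hC (fun e => dd G e η), SEXP_in E F hF (fun e => mm G e σ), ← Finset.prod_sdiff hI]
    have h1 : ((∏ e ∈ E \ I, if e ∈ F then Real.sinh b else Real.cosh b) *
        ∏ e ∈ I, if e ∈ F then (if e ∈ C then Real.sinh (2 * b) else 0) else (if e ∈ C then Real.cosh (2 * b) - 1 else 1)) *
        ((∏ e ∈ I, if e ∈ C then dd G e η else 1) *
          ((∏ e ∈ E \ I, if e ∈ F then mm G e σ else 1) * ∏ e ∈ I, if e ∈ F then mm G e σ else 1)) =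
        ((∏ e ∈ E \ I, if e ∈ F then Real.sinh b else Real.cosh b) * (∏ e ∈ E \ I, if e ∈ F then mm G e σ else 1)) *
        ((∏ e ∈ I, if e ∈ F then (if e ∈ C then Real.sinh (2 * b) else 0) else (if e ∈ C then Real.cosh (2 * b) - 1 else 1)) *
          (∏ e ∈ I, if e ∈ C then dd G e η else 1) * (∏ e ∈ I, if e ∈ F then mm G e σ else 1)) := by ring
    rw [h1, ← Finset.prod_mul_distrib, ← Finset.prod_mul_distrib, ← Finset.prod_mul_distrib]
    congr 1
    · refine Finset.prod_congr rfl fun e _ => ?_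
      by_cases h : e ∈ F
      · simp only [if_pos h]; ring
      · simp only [if_neg h]; ring
    · refine Finset.prod_congr rfl fun e _ => ?_
      by_cases h : e ∈ F <;> by_cases h' : e ∈ C
      · simp only [if_pos h, if_pos h']; ring
      · simp only [if_pos h, if_neg h']; ring
      · simp only [if_neg h, if_pos h']; ring
      · simp only [if_neg h, if_neg h']; ring
  rw [Finset.sum_congr rfl hC, ← Finset.mul_sum]
  rw [← SEXP_L I (fun e => if e ∈ F then Real.sinh (2 * b) * (dd G e η * mm G e σ) else (Real.cosh (2 * b) - 1) * dd G e η)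
    (fun e => if e ∈ F then 0 else 1)]
  rw [← Finset.prod_sdiff hI]
  congr 1
  · refine Finset.prod_congr rfl fun e he => ?_
    have : e ∉ I := (Finset.mem_sdiff.mp he).2
    simp only [A, B, if_neg this]
  · refine Finset.prod_congr rfl fun e he => ?_
    by_cases h : e ∈ F
    · simp only [A, B, if_pos he, if_pos h]
    · simp only [A, B, if_pos he, if_neg h]

end CS
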