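import Pool.Agent.helper23.CS.Spec

open Finset

namespace CS
open CU

theorem TR_mem {d : ℕ} {Λ S : Finset (ZSite d)} (hS : S ⊆ Λ) (z : ZSite d) : cl Λ z ∈ S.image (cl Λ) ↔ z ∈ S := by
  constructor
  · intro h
    rw [Finset.mem_image] at h
    obtain ⟨w, hw, hwz⟩ := h
    have hwΛ : w ∈ Λ := hS hw
    unfold cl at hwz
    rw [dif_pos hwΛ] at hwz
    by_cases hz : z ∈ Λ
    · rw [dif_pos hz] at hwz
      have := congrArg Subtype.val (Option.some.inj hwz)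
      simp only at this
      rw [← this]; exact hw
    · rw [dif_neg hz] at hwz
      exact absurd hwz (by simp)
  · intro h
    exact Finset.mem_image_of_mem _ h

theorem TR_inj {d : ℕ} {Λ S : Finset (ZSite d)} (hS : S ⊆ Λ) : Function.Injective fun s : {x // x ∈ S} => cl Λ s.1 := by
  intro s t h
  have h' : cl Λ s.1 = cl Λ t.1 := h
  unfold cl at h'
  rw [dif_pos (hS s.2), dif_pos (hS t.2)] at h'
  have h2 := congrArg Subtype.val (Option.some.inj h')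
  exact Subtype.ext h2

theorem TR_push {W V : Type} [Fintype W] [DecidableEq W] [Fintype V] [DecidableEq V] (φ : W → V) (hφ : Function.Injective φ) :
    ∃ c : ℝ, 0 < c ∧ ∀ F : (W → Bool) → ℝ, ∑ σ : V → Bool, F (fun w => σ (φ w)) = c * ∑ η : W → Bool, F η := by
  classical
  let p : V → Prop := fun v => v ∈ Set.range φ
  let e1 : (V → Bool) ≃ ({v // p v} → Bool) × ({v // ¬ p v} → Bool) := Equiv.piEquivPiSubtypeProd p fun _ => Bool
  let e2 : W ≃ {v // p v} := Equiv.ofInjective φ hφ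
  refine ⟨(Fintype.card ({v // ¬ p v} → Bool) : ℝ), by exact_mod_cast Fintype.card_pos, fun F => ?_⟩
  have h1 : ∑ σ : V → Bool, F (fun w => σ (φ w)) =
      ∑ q : ({v // p v} → Bool) × ({v // ¬ p v} → Bool), F (fun w => q.1 (e2 w)) := by
    rw [← Equiv.sum_comp e1]
    refine Finset.sum_congr rfl fun σ _ => ?_
    rfl
  rw [h1, Fintype.sum_prod_type]
  have h2 : ∀ x : {v // p v} → Bool, ∑ _y : {v // ¬ p v} → Bool, F (fun w => x (e2 w)) =
      (Fintype.card ({v // ¬ p v} → Bool) : ℝ) * F (fun w => x (e2 w)) := by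
    intro x
    rw [Finset.sum_const, nsmul_eq_mul, Finset.card_univ]
  rw [Finset.sum_congr rfl fun x _ => h2 x, ← Finset.mul_sum]
  congr 1
  exact Equiv.sum_comp (Equiv.arrowCongr e2.symm (Equiv.refl Bool)) F

theorem TR_filter {d : ℕ} {Λ S : Finset (ZSite d)} (hS : S ⊆ Λ) (p : ZSite d × Fin d → Prop) [DecidablePred p]
    (hq : ∀ e, p e → e.1 ∈ S ∨ e.1 + zev e.2 ∈ S) : (tE Λ).filter p = (tE S).filter p := by
  ext e
  simp only [Finset.mem_filter]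
  refine ⟨fun h => ⟨?_, h.2⟩, fun h => ⟨?_, h.2⟩⟩
  · unfold tE
    rw [Finset.mem_union]
    rcases hq _ h.2 with h1 | h1
    · exact Or.inl (Finset.mem_product.mpr ⟨h1, mem_univ _⟩)
    · refine Or.inr (Finset.mem_image.mpr ⟨(e.1 + zev e.2, e.2), Finset.mem_product.mpr ⟨h1, mem_univ _⟩, ?_⟩)
      simp
  · unfold tE
    rw [Finset.mem_union]
    rcases hq _ h.2 with h1 | h1
    · exact Or.inl (Finset.mem_product.mpr ⟨hS h1, mem_univ _⟩)
    · refine Or.inr (Finset.mem_image.mpr ⟨(e.1 + zev e.2, e.2), Finset.mem_product.mpr ⟨hS h1, mem_univ _⟩, ?_⟩)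
      simp

/-- extension of a configuration of `S` -/
def TR_g {d : ℕ} (S : Finset (ZSite d)) (η : {x // x ∈ S} → Bool) : ZConf d := fun z => if h : z ∈ S then η ⟨z, h⟩ else true

/-- energy inside `S` -/
noncomputable def TR_H {d : ℕ} (S : Finset (ZSite d)) (η : {x // x ∈ S} → Bool) : ℝ :=
  ∑ e ∈ (tE S).filter fun e => e.1 ∈ S ∧ e.1 + zev e.2 ∈ S, sg (TR_g S η e.1) * sg (TR_g S η (e.1 + zev e.2))

theorem TR_gcl {d : ℕ} {Λ S : Finset (ZSite d)} (σ : Option {x // x ∈ Λ} → Bool) {z : ZSite d} (hz : z ∈ S) :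
    TR_g S (fun s => σ (cl Λ s.1)) z = σ (cl Λ z) := by
  unfold TR_g
  rw [dif_pos hz]

theorem TR_en {d : ℕ} {Λ S : Finset (ZSite d)} (hS : S ⊆ Λ) (σ : Option {x // x ∈ Λ} → Bool) :
    ∑ e ∈ ins (zG Λ) univ (S.image (cl Λ)), mm (zG Λ) e σ = TR_H S (fun s => σ (cl Λ s.1)) := by
  unfold TR_H
  rw [← TR_filter hS (fun e => e.1 ∈ S ∧ e.1 + zev e.2 ∈ S) (fun e h => Or.inl h.1)]
  unfold ins
  rw [Finset.sum_filter, Finset.sum_filter]
  rw [← Finset.sum_coe_sort (tE Λ)]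
  refine Finset.sum_congr rfl fun e _ => ?_
  have h1 : ((zG Λ).s e ∈ S.image (cl Λ) ∧ (zG Λ).t e ∈ S.image (cl Λ)) ↔ (e.1.1 ∈ S ∧ e.1.1 + zev e.1.2 ∈ S) := by
    show (cl Λ e.1.1 ∈ S.image (cl Λ) ∧ cl Λ (e.1.1 + zev e.1.2) ∈ S.image (cl Λ)) ↔ _
    rw [TR_mem hS, TR_mem hS]
  by_cases h : e.1.1 ∈ S ∧ e.1.1 + zev e.1.2 ∈ S
  · rw [if_pos (h1.mpr h), if_pos h, TR_gcl σ h.1, TR_gcl σ h.2]
    rfl
  · rw [if_neg (fun h' => h (h1.mp h')), if_neg h]

theorem TR_one {d : ℕ} (b : ℝ) {Λ S : Finset (ZSite d)} (hS : S ⊆ Λ) {x y : ZSite d} (hx : x ∈ S) (hy : y ∈ S) :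
    cor (zG Λ) b (ins (zG Λ) univ (S.image (cl Λ))) (cl Λ x) (cl Λ y) =
      (∑ η : {x // x ∈ S} → Bool, Real.exp (b * TR_H S η) * (sg (TR_g S η x) * sg (TR_g S η y))) /
        ∑ η : {x // x ∈ S} → Bool, Real.exp (b * TR_H S η) * 1 := by
  obtain ⟨c, hc, hF⟩ := TR_push (fun s : {x // x ∈ S} => cl Λ s.1) (TR_inj hS)
  unfold cor mf Zf
  have h1 : ∑ σ : Option {x // x ∈ Λ} → Bool, Real.exp (b * ∑ e ∈ ins (zG Λ) univ (S.image (cl Λ)), mm (zG Λ) e σ) *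
      (sg (σ (cl Λ x)) * sg (σ (cl Λ y))) =
      c * ∑ η : {x // x ∈ S} → Bool, Real.exp (b * TR_H S η) * (sg (TR_g S η x) * sg (TR_g S η y)) := by
    rw [← hF fun η => Real.exp (b * TR_H S η) * (sg (TR_g S η x) * sg (TR_g S η y))]
    refine Finset.sum_congr rfl fun σ _ => ?_
    rw [TR_en hS, TR_gcl σ hx, TR_gcl σ hy]
  have h2 : ∑ σ : Option {x // x ∈ Λ} → Bool, Real.exp (b * ∑ e ∈ ins (zG Λ) univ (S.image (cl Λ)), mm (zG Λ) e σ) * 1 =
      c * ∑ η : {x // x ∈ S} → Bool, Real.exp (b * TR_H S η) * 1 := by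
    rw [← hF fun η => Real.exp (b * TR_H S η) * 1]
    refine Finset.sum_congr rfl fun σ _ => ?_
    rw [TR_en hS]
  rw [h1, h2, mul_div_mul_left _ _ hc.ne']

theorem TR : TR_stmt := by
  intro d b Λ S hS x y hx hy
  rw [TR_one b hS hx hy, TR_one b (Finset.Subset.refl S) hx hy]

end CS
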