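import Pool.Agent.helper23.CS.TR

open Finset

namespace CS
open CU

theorem TR2 (hTR : TR_stmt) : TR2_stmt := by
  intro d b Λ S hS h0 f
  constructor
  · rw [← TR_filter hS (fun e => e.1 ∈ S ∧ e.1 + zev e.2 ∉ S) (fun e h => Or.inl h.1)]
    unfold oS
    rw [Finset.sum_filter, Finset.sum_filter, ← Finset.sum_coe_sort (tE Λ)]
    refine Finset.sum_congr rfl fun e _ => ?_
    have h1 : ((zG Λ).s e ∈ S.image (cl Λ) ∧ (zG Λ).t e ∉ S.image (cl Λ)) ↔ (e.1.1 ∈ S ∧ e.1.1 + zev e.1.2 ∉ S) := by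
      show (cl Λ e.1.1 ∈ S.image (cl Λ) ∧ cl Λ (e.1.1 + zev e.1.2) ∉ S.image (cl Λ)) ↔ _
      rw [TR_mem hS, TR_mem hS]
    by_cases h : e.1.1 ∈ S ∧ e.1.1 + zev e.1.2 ∉ S
    · rw [if_pos (h1.mpr h), if_pos h]
      unfold cz
      rw [← hTR d b Λ S hS 0 e.1.1 h0 h.1]
      rfl
    · rw [if_neg (fun h' => h (h1.mp h')), if_neg h]
  · rw [← TR_filter hS (fun e => e.1 + zev e.2 ∈ S ∧ e.1 ∉ S) (fun e h => Or.inr h.1)]
    unfold oT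
    rw [Finset.sum_filter, Finset.sum_filter, ← Finset.sum_coe_sort (tE Λ)]
    refine Finset.sum_congr rfl fun e _ => ?_
    have h1 : ((zG Λ).t e ∈ S.image (cl Λ) ∧ (zG Λ).s e ∉ S.image (cl Λ)) ↔ (e.1.1 + zev e.1.2 ∈ S ∧ e.1.1 ∉ S) := by
      show (cl Λ (e.1.1 + zev e.1.2) ∈ S.image (cl Λ) ∧ cl Λ e.1.1 ∉ S.image (cl Λ)) ↔ _
      rw [TR_mem hS, TR_mem hS]
    by_cases h : e.1.1 + zev e.1.2 ∈ S ∧ e.1.1 ∉ S
    · rw [if_pos (h1.mpr h), if_pos h]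
      unfold cz
      rw [← hTR d b Λ S hS 0 (e.1.1 + zev e.1.2) h0 h.1]
      rfl
    · rw [if_neg (fun h' => h (h1.mp h')), if_neg h]

end CS
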