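import Pool.Agent.helper23.CS.Defs

/-!
# Project cs: basic lemmas
-/

open Finset

namespace CS

theorem ind_true {p : Prop} (h : p) : ind p = 1 := by unfold ind; exact if_pos h
theorem ind_false {p : Prop} (h : ¬ p) : ind p = 0 := by unfold ind; exact if_neg h
theorem ind_nonneg (p : Prop) : 0 ≤ ind p := by
  by_cases h : p
  · rw [ind_true h]; exact zero_le_one
  · rw [ind_false h]
theorem ind_le_one (p : Prop) : ind p ≤ 1 := by
  by_cases h : p
  · rw [ind_true h]
  · rw [ind_false h]; exact zero_le_one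
theorem ind_not (p : Prop) : ind (¬ p) = 1 - ind p := by
  by_cases h : p
  · rw [ind_true h, ind_false (not_not.mpr h)]; ring
  · rw [ind_false h, ind_true h]; ring
theorem ind_and (p q : Prop) : ind (p ∧ q) = ind p * ind q := by
  by_cases h : p <;> by_cases h' : q <;> simp [ind, h, h']
theorem ind_mono {p q : Prop} (h : p → q) : ind p ≤ ind q := by
  by_cases hp : p
  · rw [ind_true hp, ind_true (h hp)]
  · rw [ind_false hp]; exact ind_nonneg q
theorem ind_congr {p q : Prop} (h : p ↔ q) : ind p = ind q := by rw [propext h]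
theorem ind_sq (p : Prop) : ind p * ind p = ind p := by
  by_cases h : p <;> simp [ind, h]

theorem sg_sq (b : Bool) : CU.sg b * CU.sg b = 1 := by cases b <;> simp [CU.sg]
theorem sg_eq (a b : Bool) : CU.sg (a == b) = CU.sg a * CU.sg b := by cases a <;> cases b <;> simp [CU.sg]
theorem sg_or (b : Bool) : CU.sg b = 1 ∨ CU.sg b = -1 := by cases b <;> simp [CU.sg]
theorem sg_mul_self (a b : Bool) : CU.sg a * CU.sg b = if a = b then 1 else -1 := by
  cases a <;> cases b <;> simp [CU.sg]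

/-- product of two configurations (spins multiplied) -/
def mc {V : Type} (σ τ : V → Bool) : V → Bool := fun x => σ x == τ x

theorem mc_comm {V : Type} (σ τ : V → Bool) : mc σ τ = mc τ σ := by
  funext x; simp only [mc]; cases σ x <;> cases τ x <;> rfl
theorem mc_mc {V : Type} (σ τ : V → Bool) : mc σ (mc σ τ) = τ := by
  funext x; simp only [mc]; cases σ x <;> cases τ x <;> rfl
theorem sg_mc {V : Type} (σ τ : V → Bool) (x : V) : CU.sg (mc σ τ x) = CU.sg (σ x) * CU.sg (τ x) := sg_eq _ _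

/-- `σ ↦ mc τ σ` is a bijection -/
def mcE {V : Type} (τ : V → Bool) : Equiv.Perm (V → Bool) where
  toFun := mc τ
  invFun := mc τ
  left_inv := mc_mc τ
  right_inv := mc_mc τ

theorem sum_mc {V : Type} [Fintype V] [DecidableEq V] (τ : V → Bool) (f : (V → Bool) → ℝ) :
    ∑ σ, f (mc τ σ) = ∑ σ, f σ := Equiv.sum_comp (mcE τ) f

/-- a character of the group of configurations -/
def Ch {V : Type} (χ : (V → Bool) → ℝ) : Prop := (∀ σ τ, χ (mc σ τ) = χ σ * χ τ) ∧ ∀ σ, χ σ = 1 ∨ χ σ = -1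

theorem Ch_one {V : Type} : Ch (fun _ : V → Bool => (1 : ℝ)) := ⟨fun _ _ => by ring, fun _ => Or.inl rfl⟩
theorem Ch_sg {V : Type} (x : V) : Ch (fun σ : V → Bool => CU.sg (σ x)) := ⟨fun σ τ => sg_mc σ τ x, fun _ => sg_or _⟩
theorem Ch_mul {V : Type} {χ ψ : (V → Bool) → ℝ} (h : Ch χ) (h' : Ch ψ) : Ch (fun σ => χ σ * ψ σ) := by
  refine ⟨fun σ τ => ?_, fun σ => ?_⟩
  · show χ (mc σ τ) * ψ (mc σ τ) = χ σ * ψ σ * (χ τ * ψ τ)
    rw [h.1, h'.1]; ring
  · rcases h.2 σ with h1 | h1 <;> rcases h'.2 σ with h2 | h2 <;> simp [h1, h2]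
theorem Ch_mm {V ι : Type} (G : MG V ι) (e : ι) : Ch (mm G e) := Ch_mul (Ch_sg _) (Ch_sg _)
theorem Ch_prod {V ι : Type} (G : MG V ι) (F : Finset ι) : Ch (fun σ => ∏ e ∈ F, mm G e σ) := by
  classical
  induction F using Finset.induction_on with
  | empty => simpa using (Ch_one (V := V))
  | insert e F he ih =>
    have : (fun σ => ∏ e ∈ insert e F, mm G e σ) = fun σ => mm G e σ * ∏ e ∈ F, mm G e σ := by
      funext σ; rw [Finset.prod_insert he]
    rw [this]
    exact Ch_mul (Ch_mm G e) ih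

theorem mm_mc {V ι : Type} (G : MG V ι) (e : ι) (σ τ : V → Bool) : mm G e (mc σ τ) = mm G e σ * mm G e τ :=
  (Ch_mm G e).1 σ τ
theorem mm_sq {V ι : Type} (G : MG V ι) (e : ι) (σ : V → Bool) : mm G e σ * mm G e σ = 1 := by
  rcases (Ch_mm G e).2 σ with h | h <;> rw [h] <;> norm_num
theorem dd_eq {V ι : Type} (G : MG V ι) (e : ι) (σ : V → Bool) : dd G e σ = (1 + mm G e σ) / 2 := by
  unfold dd mm
  rw [sg_mul_self]
  by_cases h : σ (G.s e) = σ (G.t e)
  · rw [ind_true h, if_pos h]; norm_num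
  · rw [ind_false h, if_neg h]; norm_num
theorem dd_nonneg {V ι : Type} (G : MG V ι) (e : ι) (σ : V → Bool) : 0 ≤ dd G e σ := ind_nonneg _

/-- `σ` is constant on the edges of `ω` -/
def Cst {V ι : Type} (G : MG V ι) (ω : Finset ι) (σ : V → Bool) : Prop := ∀ e ∈ ω, σ (G.s e) = σ (G.t e)

theorem prod_dd {V ι : Type} (G : MG V ι) (ω : Finset ι) (σ : V → Bool) : ∏ e ∈ ω, dd G e σ = ind (Cst G ω σ) := by
  classical
  by_cases h : Cst G ω σ
  · rw [ind_true h]
    exact Finset.prod_eq_one fun e he => ind_true (h e he)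
  · rw [ind_false h]
    unfold Cst at h
    push Not at h
    obtain ⟨e, he, hne⟩ := h
    exact Finset.prod_eq_zero he (ind_false hne)

theorem Cst_mc {V ι : Type} {G : MG V ι} {ω : Finset ι} {σ τ : V → Bool} (h : Cst G ω σ) :
    Cst G ω (mc σ τ) ↔ Cst G ω τ := by
  constructor
  · intro h' e he
    have h1 := h e he
    have h2 := h' e he
    simp only [mc] at h2
    rw [h1] at h2
    revert h2
    cases σ (G.t e) <;> cases τ (G.s e) <;> cases τ (G.t e) <;> simp
  · intro h' e he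
    simp only [mc]
    rw [h e he, h' e he]

theorem Conn_iff {V ι : Type} (G : MG V ι) (ω : Finset ι) (x y : V) :
    Conn G ω x y ↔ ∀ σ : V → Bool, Cst G ω σ → σ x = σ y := Iff.rfl
theorem Conn_refl {V ι : Type} (G : MG V ι) (ω : Finset ι) (x : V) : Conn G ω x x := fun _ _ => rfl
theorem Conn_symm {V ι : Type} {G : MG V ι} {ω : Finset ι} {x y : V} (h : Conn G ω x y) : Conn G ω y x :=
  fun σ hσ => (h σ hσ).symm
theorem Conn_trans {V ι : Type} {G : MG V ι} {ω : Finset ι} {x y z : V} (h : Conn G ω x y) (h' : Conn G ω y z) :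
    Conn G ω x z := fun σ hσ => (h σ hσ).trans (h' σ hσ)
theorem Conn_mono {V ι : Type} {G : MG V ι} {ω ω' : Finset ι} (hω : ω ⊆ ω') {x y : V} (h : Conn G ω x y) :
    Conn G ω' x y := fun σ hσ => h σ fun e he => hσ e (hω he)
theorem Conn_edge {V ι : Type} {G : MG V ι} {ω : Finset ι} {e : ι} (he : e ∈ ω) : Conn G ω (G.s e) (G.t e) :=
  fun _ hσ => hσ e he

/-- the cluster of a vertex of `S` stays in `S` if all the edges are inside `S` -/
theorem Conn_in {V ι : Type} [DecidableEq V] {G : MG V ι} {ω : Finset ι} {S : Finset V}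
    (h : ∀ e ∈ ω, G.s e ∈ S ∧ G.t e ∈ S) {a v : V} (ha : a ∈ S) (hc : Conn G ω a v) : v ∈ S := by
  have := hc (fun x => decide (x ∈ S)) (fun e he => by simp [(h e he).1, (h e he).2])
  simpa [ha] using this

section
variable {V ι : Type} [Fintype V] [DecidableEq V]

theorem KK_eq (G : MG V ι) (ω : Finset ι) (f : (V → Bool) → ℝ) : KK G ω f = ∑ σ : V → Bool, ind (Cst G ω σ) * f σ := by
  unfold KK
  exact Finset.sum_congr rfl fun σ _ => by rw [prod_dd]

theorem KN_pos (G : MG V ι) (ω : Finset ι) : 0 < KN G ω := by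
  unfold KN
  rw [KK_eq]
  refine Finset.sum_pos' (fun σ _ => mul_nonneg (ind_nonneg _) zero_le_one) ⟨fun _ => true, mem_univ _, ?_⟩
  rw [ind_true (show Cst G ω (fun _ => true) from fun _ _ => rfl)]; norm_num

omit [DecidableEq V] in
theorem mem_Cz (G : MG V ι) (ω : Finset ι) (z v : V) : v ∈ Cz G ω z ↔ ¬ Conn G ω v z := by
  unfold Cz; simp

theorem Zf_pos (G : MG V ι) (b : ℝ) (E : Finset ι) : 0 < Zf G b E fun _ => 1 := by
  unfold Zf
  exact Finset.sum_pos (fun σ _ => by positivity) univ_nonempty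

/-- **KP**: sum of a character over the configurations constant on `ω` -/
theorem KK_char (G : MG V ι) (ω : Finset ι) (χ : (V → Bool) → ℝ) (hχ : Ch χ) :
    ((∀ σ, Cst G ω σ → χ σ = 1) ∧ KK G ω χ = KN G ω) ∨ ((∃ σ, Cst G ω σ ∧ χ σ = -1) ∧ KK G ω χ = 0) := by
  by_cases h : ∀ σ, Cst G ω σ → χ σ = 1
  · refine Or.inl ⟨h, ?_⟩
    unfold KN
    rw [KK_eq, KK_eq]
    refine Finset.sum_congr rfl fun σ _ => ?_
    by_cases hσ : Cst G ω σ
    · rw [h σ hσ]
    · rw [ind_false hσ]; ring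
  · push Not at h
    obtain ⟨τ, hτ, hne⟩ := h
    have hm : χ τ = -1 := (hχ.2 τ).resolve_left hne
    refine Or.inr ⟨⟨τ, hτ, hm⟩, ?_⟩
    have h1 : KK G ω χ = - KK G ω χ := by
      rw [KK_eq]
      conv_lhs => rw [← sum_mc τ]
      rw [← Finset.sum_neg_distrib]
      refine Finset.sum_congr rfl fun σ _ => ?_
      rw [hχ.1, hm, ind_congr (Cst_mc hτ)]
      ring
    linarith

theorem KK_char_nonneg (G : MG V ι) (ω : Finset ι) (χ : (V → Bool) → ℝ) (hχ : Ch χ) : 0 ≤ KK G ω χ := by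
  rcases KK_char G ω χ hχ with h | h
  · rw [h.2]; exact (KN_pos G ω).le
  · rw [h.2]

theorem KK_char_le (G : MG V ι) (ω : Finset ι) (χ : (V → Bool) → ℝ) (hχ : Ch χ) : KK G ω χ ≤ KN G ω := by
  rcases KK_char G ω χ hχ with h | h
  · rw [h.2]
  · rw [h.2]; exact (KN_pos G ω).le

/-- the sum of a character over all configurations is nonnegative -/
theorem sum_char_nonneg (χ : (V → Bool) → ℝ) (hχ : Ch χ) : 0 ≤ ∑ σ, χ σ := by
  have h := KK_char_nonneg (⟨fun e => e, fun e => e⟩ : MG V V) ∅ χ hχ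
  simpa [KK] using h

/-- two point function of the random cluster constraint -/
theorem KK_two (G : MG V ι) (ω : Finset ι) (x y : V) :
    KK G ω (fun σ => CU.sg (σ x) * CU.sg (σ y)) = ind (Conn G ω x y) * KN G ω := by
  have hc : Ch (fun σ : V → Bool => CU.sg (σ x) * CU.sg (σ y)) := Ch_mul (Ch_sg x) (Ch_sg y)
  rcases KK_char G ω _ hc with ⟨h, h'⟩ | ⟨⟨τ, hτ, h⟩, h'⟩
  · rw [h', ind_true, one_mul]
    intro σ hσ
    have := h σ hσ
    revert this
    rw [sg_mul_self]
    by_cases h1 : σ x = σ y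
    · exact fun _ => h1
    · rw [if_neg h1]; norm_num
  · rw [h', ind_false, zero_mul]
    intro hC
    have h2 := hC τ hτ
    revert h
    show CU.sg (τ x) * CU.sg (τ y) = -1 → False
    rw [sg_mul_self, if_pos h2]; norm_num

end

end CS
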