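import Pool.Agent.helper23.CU.Fin2
import Pool.Agent.helper45.CS.BRA
import Pool.Agent.helper23.CS.BRB
import Pool.Agent.helper3.CS.CRIT
import Pool.Agent.helper89.CS.DEC
import Pool.Agent.helper33.CS.DER
import Pool.Agent.helper33.CS.DI
import Pool.Agent.helper34.CS.EDG
import Pool.Agent.helper25.CS.EXPO
import Pool.Agent.helper75.CS.GC
import Pool.Agent.helper23.CS.GCT
import Pool.Agent.helper40.CS.GDL
import Pool.Agent.helper13.CS.GEX
import Pool.Agent.helper41.CS.GM
import Pool.Agent.helper79.CS.GUN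
import Pool.Agent.helper48.CS.KSUP
import Pool.Agent.helper33.CS.MKC
import Pool.Agent.helper33.CS.MKF
import Pool.Agent.helper2.CS.MKV
import Pool.Agent.helper23.CS.MONA
import Pool.Agent.helper33.CS.MONO
import Pool.Agent.helper9.CS.PAR
import Pool.Agent.helper89.CS.RCO
import Pool.Agent.helper49.CS.REX
import Pool.Agent.helper2.CS.RFKG
import Pool.Agent.helper23.CS.SEXP
import Pool.Agent.helper75.CS.SHARP
import Pool.Agent.helper17.CS.SL
import Pool.Agent.helper76.CS.STA0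
import Pool.Agent.helper23.CS.TR
import Pool.Agent.helper23.CS.TR2
import Pool.Agent.helper32.CS.WTS

/-!
# Project cs (MP_7c3fb3_pr, second block): assembly
-/

namespace CS

theorem a_REX : REX_stmt := REX
theorem a_RCO : RCO_stmt := RCO a_REX
theorem a_RFKG : RFKG_stmt := RFKG KSUP
theorem a_SL : SL_stmt := SL SEXP PAR
theorem a_MKV : MKV_stmt := MKV MKF MKC a_REX a_RCO
theorem a_EDG : EDG_stmt := EDG a_RCO a_RFKG
theorem a_DI : DI_stmt := DI DER a_EDG a_MKV a_RCO
theorem a_MONO : MONO_stmt := MONO a_DI a_RCO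
theorem a_TR2 : TR2_stmt := TR2 TR
theorem a_CRIT : CRIT_stmt := CRIT a_DI a_MONO a_RCO GC a_TR2
theorem a_DEC : DEC_stmt := DEC a_SL a_RCO GC a_TR2 CU.a_VC CU.a_VD
theorem a_EXPO : EXPO_stmt := EXPO a_RCO GC
theorem a_GDL : GDL_stmt := GDL CU.a_VP
theorem a_GEX : GEX_stmt := GEX GM GCT a_GDL CU.a_VB
theorem a_GUN : GUN_stmt := GUN a_GEX CU.a_VE
theorem a_SHARP : SHARP_stmt := SHARP a_CRIT a_DEC a_EXPO a_GUN
theorem a_STA0 : STA0_stmt := STA0 a_SHARP MONA BRA BRB WTS CU.a_VF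

end CS
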