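import Pool.Agent.helper23.CS.Lib

/-!
# Project cs (MP_7c3fb3_pr, second block): sharpness of the phase transition of the zero field Ising model

THEOREM.  If the Gibbs measure at `(β', 0)` on `Z^d` is unique and `0 ≤ β < β'` then the magnetisation at the centre of the box of
radius `L` with plus boundary condition is at most `C exp (-c L)` at `β`.

Every row `XX_stmt` is a statement with its complete proof.  A module file proves `theorem XX (h : YY_stmt) ... : XX_stmt`, other rows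
only as hypotheses (those named).  Namespace of the module files: `CS`; auxiliary lemmas prefixed by `XX_`.
All graphs are finite multigraphs (`MG`), `b ≥ 0`; `Lib.lean` has characters (`Ch`), `Cst`, `Conn`, `KK_char`, `KK_two`, `sum_mc`, ...
-/

open Finset Filter Topology MeasureTheory

namespace CS

/-! ## A. The inequality of Simon and Lieb -/

/-- **SEXP** (expansion of two copies).  `m = mm e σ = ±1`, `m' = mm e η = ±1`, `δ = dd e η = (1 + m')/2`: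
`exp (b m) = cosh b + m sinh b`; `exp (b m (1 + m')) = 1 + δ (cosh 2b - 1) + δ m sinh 2b` (the cases `m' = ±1`).  Multiply over `E \ I` and
`I = ins G E S` and expand: an edge of `E \ I` is in `F` (`m sinh b`) or not (`cosh b`); an edge of `I` is in neither (`1`), in `C` only
(`δ (cosh 2b - 1)`), in `C` and `F` (`δ m sinh 2b`), in `F` only (`0`).  (`Finset.prod_add` twice, or induction on `E`.) -/
def SEXP_stmt : Prop := ∀ (V ι : Type) [Fintype V] [DecidableEq V] [DecidableEq ι] (G : MG V ι) (b : ℝ) (E I : Finset ι), 0 ≤ b → I ⊆ E →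
  ∀ σ η : V → Bool, Real.exp (b * ∑ e ∈ E, mm G e σ) * Real.exp (b * ∑ e ∈ I, mm G e (mc σ η)) =
    ∑ F ∈ E.powerset, ∑ C ∈ I.powerset,
      ((∏ e ∈ E \ I, if e ∈ F then Real.sinh b else Real.cosh b) *
        ∏ e ∈ I, if e ∈ F then (if e ∈ C then Real.sinh (2 * b) else 0) else (if e ∈ C then Real.cosh (2 * b) - 1 else 1)) *
      ((∏ e ∈ C, dd G e η) * ∏ e ∈ F, mm G e σ)

/-- **PAR** (parity).  `I = ins G E S`.  The first factor `A` is nonnegative (`sum_char_nonneg`, `Ch_mul`, `Ch_prod`); if it is `0` there is nothing to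
prove.  Otherwise (`KK_char` with `ω = ∅`) `(∏ e ∈ F, mm e τ) * sg (τ a) * sg (τ z) = 1` for every `τ`.  Every term `KK C (η_a η_x)` is
`ind (Conn C a x) * KN C ≥ 0` (`KK_two`), so it is enough to find `e ∈ F` in `oS` with `Conn C a (s e)` or in `oT` with `Conn C a (t e)`.
Otherwise let `τ x = false` iff `Conn C a x`; the cluster is inside `S` (`Conn_in`).  `τ a` is minus, `τ z` plus.  For `e ∈ F`: if `e ∈ I` then
`e ∈ C`, so both ends are in the cluster or none; if `e ∈ oS` then `s e` is not in the cluster by assumption, `t e ∉ S`; `oT` the same;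
else both ends are not in `S`.  So the product is `-1`, a contradiction. -/
def PAR_stmt : Prop := ∀ (V ι : Type) [Fintype V] [DecidableEq V] [DecidableEq ι] (G : MG V ι) (E F C : Finset ι) (S : Finset V) (a z : V),
  a ∈ S → z ∉ S → F ⊆ E → C ⊆ ins G E S → F ∩ ins G E S ⊆ C →
  0 ≤ (∑ σ : V → Bool, (∏ e ∈ F, mm G e σ) * (CU.sg (σ a) * CU.sg (σ z))) *
    ((∑ e ∈ F ∩ oS G E S, KK G C fun η => CU.sg (η a) * CU.sg (η (G.s e))) +
      (∑ e ∈ F ∩ oT G E S, KK G C fun η => CU.sg (η a) * CU.sg (η (G.t e))) - KN G C)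

/-- **SL** (uses SEXP, PAR): the Simon-Lieb inequality.  `I = ins G E S`, `t = tanh b`.  Multiply by `Zf b E 1 * Zf b I 1 > 0`; in the products
`Zf b E f * Zf b I g = ∑ σ, ∑ σ', ...` put `σ' = mc σ η` (`sum_mc`); `σ'_a σ'_x σ_y σ_z = η_a η_x σ_a σ_z (σ_x σ_y)`.  With
`Wt σ η = exp (b ∑ E mm σ) exp (b ∑ I mm (mc σ η))` the claim is
`0 ≤ ∑ σ η, Wt σ η σ_a σ_z [∑ e ∈ oS, t η_a η_{s e} mm e σ + ∑ e ∈ oT, t η_a η_{t e} mm e σ - 1]`.  Insert SEXP,
`Wt = ∑ F C, w F C * ∏ C dd η * ∏ F mm σ`, `w ≥ 0`, `w F C = 0` unless `F ∩ I ⊆ C`.  For `e ∈ oS ∪ oT` (so `e ∈ E \ I`):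
`t mm e σ Wt = ∑_{F ∋ e} w F C ∏ C dd ∏ F mm + ∑_{F ∋ e} w F C t ∏ C dd ∏ (F \ e) mm` (for `e ∉ F`: `w (F ∪ e) = w F t`; for `e ∈ F`: `mm e ∏ F mm =
∏ (F \ e) mm`).  The sum over `σ, η` of the second part times `σ_a σ_z η_a η_x` is a product of two sums of characters, nonnegative
(`sum_char_nonneg`, `KK_char_nonneg`).  The first parts together with `-1` give for each `F, C` the quantity of PAR times `w F C ≥ 0`. -/
def SL_stmt : Prop := ∀ (V ι : Type) [Fintype V] [DecidableEq V] [DecidableEq ι] (G : MG V ι) (b : ℝ) (E : Finset ι) (S : Finset V) (a z : V),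
  0 ≤ b → a ∈ S → z ∉ S →
  cor G b E a z ≤ Real.tanh b *
    (∑ e ∈ oS G E S, cor G b (ins G E S) a (G.s e) * cor G b E (G.t e) z +
      ∑ e ∈ oT G E S, cor G b (ins G E S) a (G.t e) * cor G b E (G.s e) z)

/-! ## B. The random cluster representation and the derivative in `b` -/

/-- **REX**.  `exp (b m) = exp b * ((1 - p) + p δ)` with `p = 1 - exp (-2b)`, `m = mm e σ`, `δ = dd e σ` (`m = 1`, `δ = 1`; `m = -1`, `δ = 0`); `Finset.prod_add`
(over `E.powerset`), exchange of the sums. -/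
def REX_stmt : Prop := ∀ (V ι : Type) [Fintype V] [DecidableEq V] [DecidableEq ι] (G : MG V ι) (b : ℝ) (E : Finset ι) (f : (V → Bool) → ℝ),
  Zf G b E f = Real.exp (b * E.card) *
    ∑ ω ∈ E.powerset, (1 - Real.exp (-2 * b)) ^ ω.card * Real.exp (-2 * b) ^ (E \ ω).card * KK G ω f

/-- **RCO** (uses REX).  Two point function = connection probability (`KK_two`); `0 ≤ cor ≤ 1`; `0 < FS 1`; more generally the expectation of a
function through `KK`. -/
def RCO_stmt : Prop := ∀ (V ι : Type) [Fintype V] [DecidableEq V] [DecidableEq ι] (G : MG V ι) (b : ℝ) (E : Finset ι), 0 ≤ b →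
  0 < FS G b E (fun _ => 1) ∧
  (∀ f : (V → Bool) → ℝ, mf G b E f = FS G b E (fun ω => KK G ω f / KN G ω) / FS G b E fun _ => 1) ∧
  (∀ x y : V, cor G b E x y = FS G b E (fun ω => ind (Conn G ω x y)) / FS G b E fun _ => 1) ∧
  (∀ x y : V, 0 ≤ cor G b E x y ∧ cor G b E x y ≤ 1)

/-- **KSUP**.  `KN ω` = number of elements of the group `H = {σ : Cst ω σ}` (`Cst_mc`).  `H_{ω ∪ ω'} = H ∩ H'` and `(σ, σ') ↦ mc σ σ'` maps
`H × H'` into `H_{ω ∩ ω'}` with fibres in bijection with `H ∩ H'`.  Without fibres: with `N σ = ind (Cst ω σ)`, `N'`,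
`KN ω * KN ω' = ∑ σ ρ, N σ N' (mc σ ρ)` (`ρ = mc σ σ'`); `N σ N' (mc σ ρ) = 0` unless `Cst (ω ∩ ω') ρ`; for fixed `ρ` the sum over `σ` is at most
`KN (ω ∪ ω')`: if there is some `σ₀` with `Cst ω σ₀`, `Cst ω' (mc σ₀ ρ)`, then for any other `σ` the configuration `mc σ₀ σ` is constant on `ω` and on `ω'`. -/
def KSUP_stmt : Prop := ∀ (V ι : Type) [Fintype V] [DecidableEq V] [DecidableEq ι] (G : MG V ι) (ω ω' : Finset ι),
  KN G ω * KN G ω' ≤ KN G (ω ∩ ω') * KN G (ω ∪ ω')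

/-- **RFKG** (uses KSUP).  Mathlib's `fkg` on the lattice `Finset ι` (here `ι` is finite) with the weight `wf` on `E.powerset` and `0` elsewhere; `p^|ω| (1-p)^|E \ ω|` is
modular (`|ω ∩ ω'| + |ω ∪ ω'| = |ω| + |ω'|`, the same for the complements in `E`). -/
def RFKG_stmt : Prop := ∀ (V ι : Type) [Fintype V] [DecidableEq V] [DecidableEq ι] [Fintype ι] (G : MG V ι) (b : ℝ) (E : Finset ι), 0 ≤ b →
  ∀ F H : Finset ι → ℝ, Monotone F → Monotone H → (∀ ω, 0 ≤ F ω) → (∀ ω, 0 ≤ H ω) →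
  FS G b E F * FS G b E H ≤ FS G b E (fun _ => 1) * FS G b E fun ω => F ω * H ω

/-- **MKF** (factorisation).  `f` depends only on the spins in `S`, the edges of `ω₁` are inside `S`, those of `ω₂` outside.
`2^|V| KK (ω₁ ∪ ω₂) f = KK ω₁ f * KN ω₂`: on pairs `(σ, σ')` exchange the parts outside `S`: an involution of `(V → Bool)²` under which
`∏_{ω₁} dd σ * f σ` is invariant and `∏_{ω₂} dd σ'` becomes `∏_{ω₂} dd σ`.  (`2^|V| = ∑ σ', 1 = Fintype.card (V → Bool)`.) -/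
def MKF_stmt : Prop := ∀ (V ι : Type) [Fintype V] [DecidableEq V] [DecidableEq ι] (G : MG V ι) (ω₁ ω₂ : Finset ι) (S : Finset V)
  (f : (V → Bool) → ℝ), (∀ e ∈ ω₁, G.s e ∈ S ∧ G.t e ∈ S) → (∀ e ∈ ω₂, G.s e ∉ S ∧ G.t e ∉ S) →
  (∀ σ τ : V → Bool, (∀ x ∈ S, σ x = τ x) → f σ = f τ) →
  (Fintype.card (V → Bool) : ℝ) * KK G (ω₁ ∪ ω₂) f = KK G ω₁ f * KN G ω₂

/-- **MKC** (the cluster of `z`).  For `ω ⊆ E`, `z ∉ S`: `Cz ω z = S` iff no edge of `ω` leaves `S` and every `v ∉ S` is connected to `z` by the edges of `ω`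
outside `S`.  (→) An edge `e ∈ ω` with `s e ∈ S`, `t e ∉ S` would connect `s e` to `z`.  If `v ∉ S` and `σ` is constant on the edges of `ω` outside `S`, change `σ` to
`true` on `S`: it is constant on `ω`, so `σ v = σ z`.  (←) `v ∉ S`: `Conn_mono`.  `v ∈ S`: the indicator of `S` is constant on `ω` and separates `v` from `z`. -/
def MKC_stmt : Prop := ∀ (V ι : Type) [Fintype V] [DecidableEq V] [DecidableEq ι] (G : MG V ι) (E ω : Finset ι) (S : Finset V) (z : V),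
  ω ⊆ E → z ∉ S → (Cz G ω z = S ↔ (∀ e ∈ ω, (G.s e ∈ S ∧ G.t e ∈ S) ∨ (G.s e ∉ S ∧ G.t e ∉ S)) ∧
    ∀ v, v ∉ S → Conn G (ω.filter fun e => G.s e ∉ S ∧ G.t e ∉ S) v z)

/-- **MKV** (uses MKF, MKC, REX, RCO): the Markov property.  `I = ins G E S`, `T = {e ∈ E : both ends not in S}`, `B = E \ (I ∪ T)`.  By MKC the sum over `ω` with
`Cz ω z = S` is the sum over `ω = ω₁ ∪ ω₂`, `ω₁ ⊆ I`, `ω₂ ⊆ T` with every `v ∉ S` connected to `z` in `ω₂`; the weight is a product,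
`(E \ ω).card = (I \ ω₁).card + (T \ ω₂).card + B.card`; `ind (Conn ω a x) KN ω = KK ω (σ_a σ_x)` (`KK_two`) `= KK ω₁ (σ_a σ_x) KN ω₂ / 2^|V|` (MKF), and for
`f = 1` the same.  The sum over `ω₁` is `exp (-b |I|) Zf b I (σ_a σ_x)`, respectively `exp (-b |I|) Zf b I 1` (REX); quotient `= cor`. -/
def MKV_stmt : Prop := ∀ (V ι : Type) [Fintype V] [DecidableEq V] [DecidableEq ι] (G : MG V ι) (b : ℝ) (E : Finset ι) (S : Finset V) (a x z : V),
  0 ≤ b → a ∈ S → x ∈ S → z ∉ S →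
  FS G b E (fun ω => ind (Cz G ω z = S) * ind (Conn G ω a x)) =
    cor G b (ins G E S) a x * FS G b E fun ω => ind (Cz G ω z = S)

/-- **DER**.  Derivative of a quotient of finite sums of exponentials. -/
def DER_stmt : Prop := ∀ (V ι : Type) [Fintype V] [DecidableEq V] [DecidableEq ι] (G : MG V ι) (b : ℝ) (E : Finset ι) (a z : V),
  HasDerivAt (fun b => cor G b E a z) (∑ e ∈ E, (mf G b E (fun σ => CU.sg (σ a) * CU.sg (σ z) * mm G e σ) -
    cor G b E a z * cor G b E (G.s e) (G.t e))) b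

/-- **EDG** (uses RCO, RFKG).  By RCO (2) `mf (σ_a σ_z σ_s σ_t)` is the average of `KK ω (σ_a σ_z σ_s σ_t)/KN ω`, which is `≥ 0` (`KK_char_nonneg`), equals
`ind (Conn s t)` if `Conn a z` (then `σ_a σ_z = 1` on the configurations constant on `ω`), and equals `1` if `Conn a s ∧ Conn t z` or `Conn a t ∧ Conn s z`; if not
`Conn a z` the last two events are disjoint.  And `cor a z * cor s t ≤ (average of ind (Conn a z) ind (Conn s t))` by RFKG (`Conn_mono`). -/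
def EDG_stmt : Prop := ∀ (V ι : Type) [Fintype V] [DecidableEq V] [DecidableEq ι] [Fintype ι] (G : MG V ι) (b : ℝ) (E : Finset ι), 0 ≤ b →
  ∀ (a z s t : V),
  FS G b E (fun ω => ind (¬ Conn G ω a z) * (ind (Conn G ω a s ∧ Conn G ω t z) + ind (Conn G ω a t ∧ Conn G ω s z))) /
    FS G b E (fun _ => 1) ≤
  mf G b E (fun σ => CU.sg (σ a) * CU.sg (σ z) * (CU.sg (σ s) * CU.sg (σ t))) - cor G b E a z * cor G b E s t

/-- **DI** (uses DER, EDG, MKV, RCO): the differential inequality.  `D` from DER, `D ≥ ∑ e ∈ E` (left side of EDG for `s e, t e`).  If not `Conn ω a z`, with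
`S = Cz ω z ∋ a`: `Conn a (s e) ∧ Conn (t e) z` iff `Conn a (s e) ∧ s e ∈ S ∧ t e ∉ S` (`mem_Cz`).  So
`∑ e ∈ E, FS (ind (¬ Conn a z) ind (Conn a (s e) ∧ Conn (t e) z)) = ∑_{S ∋ a, z ∉ S} ∑ e ∈ oS E S, FS (ind (Cz = S) ind (Conn a (s e)))`, by MKV
`= ∑_S (∑ e ∈ oS E S, cor (ins E S) a (s e)) FS (ind (Cz = S))`; with the other half `∑_S psi S * FS (ind (Cz = S)) ≥ c ∑_S FS (ind (Cz = S)) =
c FS (ind (¬ Conn a z)) = c (1 - cor a z) FS 1` (RCO). -/
def DI_stmt : Prop := ∀ (V ι : Type) [Fintype V] [DecidableEq V] [DecidableEq ι] [Fintype ι] (G : MG V ι) (b : ℝ) (E : Finset ι), 0 ≤ b →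
  ∀ (a z : V) (c : ℝ), (∀ S : Finset V, a ∈ S → z ∉ S → c ≤ psi G b E S a) →
  ∃ D : ℝ, HasDerivAt (fun b => cor G b E a z) D b ∧ c * (1 - cor G b E a z) ≤ D

/-- **MONO** (uses DI, RCO).  `psi ≥ 0` (RCO), so `D ≥ 0` for `b ≥ 0`: `monotoneOn_of_deriv_nonneg`. -/
def MONO_stmt : Prop := ∀ (V ι : Type) [Fintype V] [DecidableEq V] [DecidableEq ι] [Fintype ι] (G : MG V ι) (E : Finset ι) (a z : V),
  MonotoneOn (fun b => cor G b E a z) (Set.Ici 0)

/-! ## C. The lattice -/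
open CU

/-- **GC**.  `gam` with plus boundary condition and zero field is a two point function with the ghost `none`.  In the sums over `σ : Option Λ → Bool` the terms are invariant
under the global flip, so each is twice the sum over `σ` with `σ none = true`, i.e. over `η = σ ∘ some`; `glue Λ η plus x = σ (cl Λ x)`;
`∑ e : {e // e ∈ tE Λ}` is `Finset.sum_coe_sort` (or `Finset.sum_attach`).  For `x ∉ Λ` both sides are `1`. -/
def GC_stmt : Prop := ∀ (d : ℕ) (b : ℝ) (Λ : Finset (ZSite d)) (x : ZSite d),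
  gam b 0 Λ (fun σ => sg (σ x)) (fun _ => true) = cor (zG Λ) b univ (cl Λ x) none

/-- **TR**.  The free two point function of `S` computed in `zG Λ` or in `zG S`: general principle: for an injective `φ : W → V` and `F : (W → Bool) → ℝ`,
`∑ σ : V → Bool, F (σ ∘ φ) = 2^(|V|-|W|) ∑ η, F η`, with `W = {x // x ∈ S}`; the edges `ins (zG Λ) univ (S.image (cl Λ))` are the `e ∈ tE Λ` with `e.1 ∈ S`, `e.1 + zev e.2 ∈ S`,
and all such pairs are in `tE S ⊆ tE Λ`; `cl Λ` is injective on `S ⊆ Λ`. -/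
def TR_stmt : Prop := ∀ (d : ℕ) (b : ℝ) (Λ S : Finset (ZSite d)), S ⊆ Λ → ∀ x y : ZSite d, x ∈ S → y ∈ S →
  cor (zG Λ) b (ins (zG Λ) univ (S.image (cl Λ))) (cl Λ x) (cl Λ y) =
    cor (zG S) b (ins (zG S) univ (S.image (cl S))) (cl S x) (cl S y)

/-- **TR2** (uses TR).  For `S ⊆ Λ`: `cl Λ y ∈ S.image (cl Λ)` iff `y ∈ S`; sums over `{e // e ∈ tE Λ}` filtered = sums over `(tE Λ).filter = (tE S).filter` (an edge with exactly one end in `S`
touches `S`). -/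
def TR2_stmt : Prop := ∀ (d : ℕ) (b : ℝ) (Λ S : Finset (ZSite d)), S ⊆ Λ → (0 : ZSite d) ∈ S → ∀ f : ZSite d → ℝ,
  (∑ e ∈ oS (zG Λ) univ (S.image (cl Λ)), cor (zG Λ) b (ins (zG Λ) univ (S.image (cl Λ))) (cl Λ 0) ((zG Λ).s e) * f (e.1.1 + zev e.1.2) =
    ∑ e ∈ (tE S).filter fun e => e.1 ∈ S ∧ e.1 + zev e.2 ∉ S, cz b S e.1 * f (e.1 + zev e.2)) ∧
  (∑ e ∈ oT (zG Λ) univ (S.image (cl Λ)), cor (zG Λ) b (ins (zG Λ) univ (S.image (cl Λ))) (cl Λ 0) ((zG Λ).t e) * f e.1.1 =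
    ∑ e ∈ (tE S).filter fun e => e.1 + zev e.2 ∈ S ∧ e.1 ∉ S, cz b S (e.1 + zev e.2) * f e.1)

/-- **CRIT** (uses DI, MONO, RCO, GC, TR2).  `Λ = zBox L 0`, `f b = ML d b L = cor (zG Λ) b univ (cl Λ 0) none` (GC).  For `b ∈ [β, β']` and `S' ∋ cl Λ 0`, `none ∉ S'`:
`S' = S.image (cl Λ)` with `S = {x ∈ Λ : cl Λ x ∈ S'} ∋ 0`, `psi (zG Λ) b univ S' (cl Λ 0) = psz b S` (TR2 with `f = 1`) `≥ psz β S` (MONO, termwise) `≥ 1/2`.  DI:
`f' ≥ (1/2)(1 - f)` on `[β, β']`; `f` is nondecreasing (MONO), `0 ≤ f ≤ 1`.  If `f β' ≤ 1/2` then `f' ≥ 1/4` on `[β, β']`, so `f β' ≥ (β' - β)/4` (mean value). -/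
def CRIT_stmt : Prop := ∀ (d : ℕ) (β β' : ℝ), 0 ≤ β → β < β' →
  (∀ S : Finset (ZSite d), (0 : ZSite d) ∈ S → 1 / 2 ≤ psz β S) → ∀ L : ℕ, min (1 / 2) ((β' - β) / 4) ≤ ML d β' L

/-- **DEC** (uses SL, RCO, GC, TR2; `VC_stmt`, `VD_stmt` of project cu as hypotheses).  `Λ = zBox L 0`, `a = cl Λ 0`, `z = none`, `S' = S.image (cl Λ)` in SL; for the outer endpoints
`y ∈ zBox (n+1) 0 ⊆ Λ`, `cor (zG Λ) β univ (cl Λ y) none = gam β 0 (zBox L 0) (σ_y) plus ≤ gam β 0 (zBox (L-(n+1)) y) (σ_y) plus = ML d β (L - (n+1))` (GC, VC with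
`zBox (L-(n+1)) y ⊆ zBox L 0`, VD); `cz ≥ 0`. -/
def DEC_stmt : Prop := ∀ (d : ℕ) (β : ℝ) (n : ℕ) (S : Finset (ZSite d)), 0 ≤ β → (0 : ZSite d) ∈ S → S ⊆ zBox n (0 : ZSite d) →
  Real.tanh β * psz β S ≤ 1 / 2 → ∀ L : ℕ, n + 1 ≤ L → ML d β L ≤ 1 / 2 * ML d β (L - (n + 1))

/-- **EXPO** (uses RCO, GC).  `0 ≤ ML ≤ 1`; strong induction: `ML L ≤ 2 (1/2)^(L/(n+1))`. -/
def EXPO_stmt : Prop := ∀ (d : ℕ) (β : ℝ) (n : ℕ), 0 ≤ β → (∀ L : ℕ, n + 1 ≤ L → ML d β L ≤ 1 / 2 * ML d β (L - (n + 1))) →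
  ∃ C c : ℝ, 0 < C ∧ 0 < c ∧ ∀ L : ℕ, ML d β L ≤ C * Real.exp (-c * L)

/-! ## D. Infinite volume Gibbs measures -/

/-- **GM**.  The finite volume measure `∑ η, (weight/Z) • dirac (glue Λ η ω)`. -/
def GM_stmt : Prop := ∀ (d : ℕ) (β : ℝ) (Λ : Finset (ZSite d)) (ω : ZConf d), ∃ P : ProbabilityMeasure (ZConf d),
  ∀ f : ZConf d → ℝ, Continuous f → ∫ σ, f σ ∂(P : Measure (ZConf d)) = gam β 0 Λ f ω

/-- **GCT**.  `gam β 0 Λ f` is continuous for continuous `f` (finite sums, products and quotients of continuous functions; `ω ↦ glue Λ η ω` is continuous; a function of finitely many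
coordinates in `Bool` is continuous); the function `σ ↦ sg (σ x)` is continuous. -/
def GCT_stmt : Prop := ∀ (d : ℕ) (β : ℝ) (Λ : Finset (ZSite d)),
  (∀ f : ZConf d → ℝ, Continuous f → Continuous fun ω => gam β 0 Λ f ω) ∧ ∀ x : ZSite d, Continuous fun σ : ZConf d => sg (σ x)

/-- **GDL**.  A probability measure with `∫ gam Λ f = ∫ f` for all finite `Λ` and continuous `f` is a Gibbs measure.  For fixed `Λ`:
`ν A = ∑ η, (μ.withDensity (weight_η / Z)).map (glue Λ η) A` is a finite measure with `ν.real A = ∫ gam Λ (indicator of A)` for measurable `A`; the sets `{σ = plus on S}`, `S` finite,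
are clopen (continuous indicator), so `ν = μ` on them, and `ν`, `μ` are probability measures: `VP_stmt` of project cu (hypothesis). -/
def GDL_stmt : Prop := ∀ (d : ℕ) (β : ℝ) (μ : Measure (ZConf d)), IsProbabilityMeasure μ →
  (∀ (Λ : Finset (ZSite d)) (f : ZConf d → ℝ), Continuous f → ∫ ω, gam β 0 Λ f ω ∂μ = ∫ ω, f ω ∂μ) → IsGibbs d β 0 μ

/-- **GEX** (uses GM, GCT, GDL; `VB_stmt` of project cu as hypothesis).  `P_L` = the measure of GM for `zBox L 0` and `ω`.  `ProbabilityMeasure (ZConf d)` is compact (Mathlib, `Measure/Prokhorov`; `ZConf d` is compact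
and metrizable), so along an ultrafilter `U ≤ atTop` `P_L → P` (`Ultrafilter.le_nhds_lim` / `isCompact_univ.ultrafilter_le_nhds`).  For continuous `f`: `∫ f dP = lim ∫ f dP_L`
(`ProbabilityMeasure.tendsto_iff_forall_integral_tendsto`), and for `L` large (`Λ ⊆ zBox L 0`) `∫ gam Λ f dP_L = gam (zBox L 0) (gam Λ f) ω = gam (zBox L 0) f ω = ∫ f dP_L` (GM, GCT, VB),
so GDL applies to `P`. -/
def GEX_stmt : Prop := ∀ (d : ℕ) (β : ℝ) (ω : ZConf d), ∃ (μ : Measure (ZConf d)) (U : Ultrafilter ℕ), (U : Filter ℕ) ≤ atTop ∧ IsGibbs d β 0 μ ∧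
  ∀ x : ZSite d, Tendsto (fun L : ℕ => gam β 0 (zBox L (0 : ZSite d)) (fun σ => sg (σ x)) ω) U (𝓝 (∫ σ, sg (σ x) ∂μ))

/-- **GUN** (uses GEX; `VE_stmt` of project cu as hypothesis).  The measures of GEX for plus and minus have `∫ σ_0 ≥ m` and `∫ σ_0 ≤ -m` (VE), so they are different. -/
def GUN_stmt : Prop := ∀ (d : ℕ) (β m : ℝ), 0 < m → (∀ L : ℕ, m ≤ ML d β L) → ¬ Uniq d β

/-- **SHARP** (uses CRIT, DEC, EXPO, GUN).  `β = 0`: `tanh 0 = 0`, DEC with `S = {0}`, `n = 0`.  `β > 0`: if `psz β S < 1/2` for some `S ∋ 0`, then (`tanh β ≤ 1`, `psz ≥ 0` or trivial) DEC and EXPO; otherwise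
CRIT gives a lower bound of `ML d β' L` for all `L`, which contradicts uniqueness by GUN. -/
def SHARP_stmt : Prop := ∀ (d : ℕ) (β β' : ℝ), 0 ≤ β → β < β' → Uniq d β' →
  ∃ C c : ℝ, 0 < C ∧ 0 < c ∧ ∀ L : ℕ, ML d β L ≤ C * Real.exp (-c * L)

end CS
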