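import Pool.Agent.helper23.CS.Spec
import Pool.Agent.helper18.CWM.Defs

/-!
# Project cs (MP_7c3fb3_pr, second block): bridge to the torus and to project cwm (`dl`, `Bl`, `tD`)

Rules as in `Spec.lean`.  Result: in zero field, below a point of uniqueness, the hypothesis of project cwm on `dl` holds.
-/

open Finset Filter Topology MeasureTheory

namespace CS
open CU

/-- **MONA**.  For an increasing `f ≥ 0` and `A' ⊆ A`: `av (cw W A true) f ≤ av (cw W A' true) f` by Mathlib's `fkg` for the weight `cw W A true` (log-supermodular, nonnegative) and the increasing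
function `ind (∀ x ∉ A', σ x = true)` (`cw W A' true = cw W A true * ` this indicator); `f = ind (σ x = true)`.  For the minus boundary condition `av (cw W A' false) f ≤ av (cw W A false) f`:
`fkg` with `1 - ind (∀ x ∉ A', σ x = false)`, increasing and nonnegative. -/
def MONA_stmt : Prop := ∀ (V : Type) [Fintype V] [DecidableEq V] (W : (V → Bool) → ℝ), (∀ σ, 0 < W σ) →
  (∀ σ τ, W σ * W τ ≤ W (σ ⊓ τ) * W (σ ⊔ τ)) → ∀ (A' A : Finset V), A' ⊆ A → ∀ x : V, CWM.dl W A x ≤ CWM.dl W A' x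

/-- **BRA**.  `ind (σ x = true) = (1 + sg (σ x))/2`; the flip `σ ↦ !σ` preserves `wt β 0` and exchanges `cw _ A true` and `cw _ A false`, so
`av (cw _ A false) (sg (σ x)) = - av (cw _ A true) (sg (σ x))`. -/
def BRA_stmt : Prop := ∀ (d n : ℕ) (β : ℝ) (A : Finset (Site d (n + 3))) (x : Site d (n + 3)),
  CWM.dl (wt β 0 : Conf d (n + 3) → ℝ) A x = CWM.av (CWM.cw (wt β 0 : Conf d (n + 3) → ℝ) A true) fun σ => sg (σ x)

/-- **BRB**.  Translation by `x` (`σ ↦ σ (· + x)` preserves `wt β 0`); `Bl (tD ..) 0 L = Box L 0` (`dsT ≤ L` iff every `valMinAbs.natAbs ≤ L`; sign: `ZMod.natAbs_valMinAbs_neg`);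
`wt β 0 σ = exp (β d N) * W β σ` (`sg a * sg b = 1 - 2 ind (a ≠ b)`, `brk`), the constant cancels; `cw _ A true` is the restriction of the sum to `PlusOn A`. -/
def BRB_stmt : Prop := ∀ (d n : ℕ) (β : ℝ) (L : ℕ) (x : Site d (n + 3)),
  CWM.av (CWM.cw (wt β 0 : Conf d (n + 3) → ℝ) (CWM.Bl (CWM.tD d (n + 3) β 0) x L) true) (fun σ => sg (σ x)) =
    ExD (d := d) (n := n + 3) β (Box L 0) fun σ => sg (σ 0)

/-- **WTS**.  `wt β 0` is positive and log-supermodular for `β ≥ 0`: bond by bond `a b + a' b' ≤ (a ⊓ a')(b ⊓ b') + (a ⊔ a')(b ⊔ b')` for spins. -/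
def WTS_stmt : Prop := ∀ (d n : ℕ) (β : ℝ), 0 ≤ β → (∀ σ : Conf d (n + 3), 0 < wt β 0 σ) ∧
  ∀ σ τ : Conf d (n + 3), wt β 0 σ * wt β 0 τ ≤ wt β 0 (σ ⊓ τ) * wt β 0 (σ ⊔ τ)

/-- **STA0** (uses SHARP, MONA, BRA, BRB, WTS; `VF_stmt` of project cu as hypothesis).  `B = Bl (tD ..) x L`.  If `2 L ≤ n`: `dl = ML d β L` (BRA, BRB, VF).  If `2 L = n + 1`: `L ≥ 1`,
`dl (Bl x L) ≤ dl (Bl x (L-1)) = ML d β (L-1)` (MONA).  If `2 L ≥ n + 2`: `Bl x L = univ` (`valMinAbs.natAbs ≤ (n+3)/2 ≤ L`), `cw _ univ b` does not depend on `b`, `dl = 0`.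
`C' exp (-c (L-1)) ≤ C/(L+1)^(4d)`. -/
def STA0_stmt : Prop := ∀ (d : ℕ) (β β' : ℝ), 0 ≤ β → β < β' → Uniq d β' → ∃ C : ℝ, 0 ≤ C ∧
  ∀ (n : ℕ) (x : Site d (n + 3)) (L : ℕ),
  CWM.dl (wt β 0 : Conf d (n + 3) → ℝ) (CWM.Bl (CWM.tD d (n + 3) β 0) x L) x ≤ C / ((L : ℝ) + 1) ^ (4 * d)

end CS
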